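import Pool.Agent.Cov.PrimesAP
import Pool.Agent.Helper923.HMertens

set_option autoImplicit false

/-!
Mertens' theorem (with the factor `log p`) for the primes that are `1` modulo `m`, up to `ε log N`.
-/

namespace Pool.Agent.Run7.h283.OR

open Finset Filter Topology ArithmeticFunction Pool.Agent.Helper923.HMertens

/-- The weight of a prime that is `1` modulo `m`. -/
noncomputable def wt (m k : ℕ) : ℝ := if k.Prime ∧ k % m = 1 % m then Real.log k else 0

lemma wt_nonneg (m k : ℕ) : 0 ≤ wt m k := by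
  unfold wt
  split_ifs
  · exact Real.log_natCast_nonneg k
  · exact le_rfl

lemma class_iff' (m r : ℕ) : ((r : ℕ) : ZMod m) = 1 ↔ r % m = 1 % m := by
  have h := ZMod.natCast_eq_natCast_iff' r 1 m
  rwa [Nat.cast_one] at h

lemma rc_pos {m k : ℕ} (h : k % m = 1 % m) :
    vonMangoldt.residueClass (1 : ZMod m) k = vonMangoldt k := by
  have h1 : k ∈ {n : ℕ | (n : ZMod m) = 1} := (class_iff' m k).2 h
  exact Set.indicator_of_mem h1 _

lemma rc_neg {m k : ℕ} (h : ¬ k % m = 1 % m) :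
    vonMangoldt.residueClass (1 : ZMod m) k = 0 := by
  have h1 : k ∉ {n : ℕ | (n : ZMod m) = 1} := fun h' => h ((class_iff' m k).1 h')
  exact Set.indicator_of_notMem h1 _

lemma theta_eq (n : ℕ) : Chebyshev.theta (n : ℝ) =
    ∑ k ∈ Icc 1 n, if k.Prime then Real.log k else 0 := by
  have h2 : Chebyshev.theta (n : ℝ) = ∑ p ∈ PP n, Real.log p := by
    rw [Chebyshev.theta, Nat.floor_natCast]
    rfl
  rw [h2, sum_filter]

lemma psi_eq (n : ℕ) : Chebyshev.psi (n : ℝ) = ∑ k ∈ Icc 1 n, vonMangoldt k := by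
  rw [Chebyshev.psi, Nat.floor_natCast]
  rfl

theorem theta_tendsto {m : ℕ} (hm : 1 ≤ m) :
    Tendsto (fun n : ℕ => (∑ k ∈ Icc 1 n, wt m k) / n) atTop (𝓝 ((m.totient : ℝ)⁻¹)) := by
  have : NeZero m := ⟨by omega⟩
  have h := (Pool.Agent.Cov.PNT.pnt_residueClass (q := m) (a := 1) isUnit_one).comp
    (tendsto_natCast_atTop_atTop (R := ℝ))
  have h' : Tendsto (fun n : ℕ => (∑ k ∈ Icc 1 n, vonMangoldt.residueClass (1 : ZMod m) k) / (n : ℝ))
      atTop (𝓝 ((m.totient : ℝ)⁻¹)) := by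
    refine h.congr fun n => ?_
    simp only [Function.comp, Nat.floor_natCast]
  have h2 := Pool.Agent.Cov.psi_theta_tendsto.comp (tendsto_natCast_atTop_atTop (R := ℝ))
  have h3 : Tendsto (fun n : ℕ => (∑ k ∈ Icc 1 n, vonMangoldt.residueClass (1 : ZMod m) k) / (n : ℝ) -
      (∑ k ∈ Icc 1 n, wt m k) / n) atTop (𝓝 0) := by
    refine squeeze_zero' ?_ ?_ h2
    · refine Eventually.of_forall fun n => ?_
      rw [← sub_div, ← sum_sub_distrib]
      refine div_nonneg (sum_nonneg fun k _ => ?_) (Nat.cast_nonneg n)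
      unfold wt
      split_ifs with hk
      · rw [rc_pos hk.2, vonMangoldt_apply_prime hk.1, sub_self]
      · rw [sub_zero]
        exact vonMangoldt.residueClass_nonneg _ _
    · refine Eventually.of_forall fun n => ?_
      rw [← sub_div]
      simp only [Function.comp]
      refine div_le_div_of_nonneg_right ?_ (Nat.cast_nonneg n)
      rw [theta_eq, psi_eq, ← sum_sub_distrib, ← sum_sub_distrib]
      refine sum_le_sum fun k _ => ?_
      unfold wt
      by_cases hp : k.Prime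
      · by_cases hk : k % m = 1 % m
        · rw [if_pos ⟨hp, hk⟩, if_pos hp]
          exact sub_le_sub_right (rc_pos hk).le _
        · rw [if_neg (fun h => hk h.2), if_pos hp, sub_zero, vonMangoldt_apply_prime hp, sub_self,
            rc_neg hk]
      · rw [if_neg (fun h => hp h.1), if_neg hp, sub_zero, sub_zero, vonMangoldt.residueClass]
        exact Set.indicator_le_self' (fun _ _ => vonMangoldt_nonneg) k
  have h4 := h'.sub h3
  simp only [sub_sub_cancel, sub_zero] at h4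
  exact h4

/-- Mertens' theorem for the primes `1` modulo `m`, up to `ε log N`. -/
theorem mertens_one {m : ℕ} (hm : 1 ≤ m) {ε : ℝ} (hε : 0 < ε) :
    ∃ C : ℝ, 0 ≤ C ∧ ∀ N : ℕ, 1 ≤ N →
      |∑ k ∈ Icc 1 N, wt m k / k - (m.totient : ℝ)⁻¹ * Real.log N| ≤ ε * Real.log N + C := by
  set c := (m.totient : ℝ)⁻¹ with hc
  have hc0 : 0 ≤ c := by rw [hc]; positivity
  have hc1 : c ≤ 1 := by
    rw [hc]
    refine inv_le_one_of_one_le₀ ?_
    exact_mod_cast Nat.totient_pos.2 hm
  -- `|θ(n) - c n| ≤ ε n + C₁`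
  obtain ⟨C₁, hC₁0, hC₁⟩ : ∃ C₁ : ℝ, 0 ≤ C₁ ∧ ∀ n : ℕ, |∑ k ∈ Icc 1 n, wt m k - c * n| ≤ ε * n + C₁ := by
    have h := Metric.tendsto_atTop.1 (theta_tendsto hm) ε hε
    obtain ⟨n₀, hn₀⟩ := h
    refine ⟨∑ n ∈ range (n₀ + 1), |∑ k ∈ Icc 1 n, wt m k - c * n|,
      sum_nonneg fun _ _ => abs_nonneg _, fun n => ?_⟩
    rcases Nat.lt_or_ge n (n₀ + 1) with h1 | h1
    · have h2 := single_le_sum (f := fun n : ℕ => |∑ k ∈ Icc 1 n, wt m k - c * n|)
        (fun _ _ => abs_nonneg _) (mem_range.2 h1)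
      have : 0 ≤ ε * n := by positivity
      linarith
    · have hn : (0 : ℝ) < n := by exact_mod_cast (by omega : 0 < n)
      have h2 := hn₀ n (by omega)
      rw [Real.dist_eq, ← hc] at h2
      have h3 : (∑ k ∈ Icc 1 n, wt m k) - c * n = ((∑ k ∈ Icc 1 n, wt m k) / n - c) * n := by
        field_simp
      rw [h3, abs_mul, abs_of_pos hn]
      have h4 := mul_le_mul_of_nonneg_right h2.le hn.le
      have h5 : 0 ≤ ∑ n ∈ range (n₀ + 1), |∑ k ∈ Icc 1 n, wt m k - c * n| :=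
        sum_nonneg fun _ _ => abs_nonneg _
      linarith
  -- partial summation
  have key : ∀ N : ℕ, 1 ≤ N → |(∑ k ∈ Icc 1 N, wt m k / k - c * ∑ k ∈ Icc 1 N, (1 : ℝ) / k) -
      (∑ k ∈ Icc 1 N, wt m k - c * N) / N| ≤ ε * Real.log N + C₁ * (1 - 1 / N) := by
    intro N hN
    induction N, hN using Nat.le_induction with
    | base => simp
    | succ n hn ih =>
      have hn0 : (0 : ℝ) < n := by exact_mod_cast hn
      have hE := hC₁ n
      set E := ∑ k ∈ Icc 1 n, wt m k - c * n with hEdef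
      rw [sum_Icc_succ_top (by omega), sum_Icc_succ_top (by omega), sum_Icc_succ_top (by omega)]
      have e1 : (∑ k ∈ Icc 1 n, wt m k / k + wt m (n + 1) / ((n + 1 : ℕ) : ℝ) -
          c * (∑ k ∈ Icc 1 n, (1 : ℝ) / k + 1 / ((n + 1 : ℕ) : ℝ))) -
          (∑ k ∈ Icc 1 n, wt m k + wt m (n + 1) - c * ((n + 1 : ℕ) : ℝ)) / ((n + 1 : ℕ) : ℝ) =
          ((∑ k ∈ Icc 1 n, wt m k / k - c * ∑ k ∈ Icc 1 n, (1 : ℝ) / k) - E / n) +
            E / (n * ((n : ℝ) + 1)) := by
        rw [hEdef]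
        push_cast
        field_simp
        ring
      rw [e1]
      refine (abs_add_le _ _).trans ?_
      have h2 : |E / (n * ((n : ℝ) + 1))| ≤ ε / (n + 1) + C₁ * (1 / n - 1 / (n + 1)) := by
        rw [abs_div, abs_of_pos (by positivity : (0 : ℝ) < n * ((n : ℝ) + 1)), div_le_iff₀ (by positivity)]
        refine hE.trans (le_of_eq ?_)
        field_simp
        ring
      have h3 : 1 / ((n : ℝ) + 1) ≤ Real.log ((n : ℝ) + 1) - Real.log n := by
        rw [← Real.log_div (by positivity) hn0.ne']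
        have h4 := Real.one_sub_inv_le_log_of_pos (x := ((n : ℝ) + 1) / n) (by positivity)
        rw [inv_div] at h4
        refine le_trans (le_of_eq ?_) h4
        field_simp
        ring
      have h5 := mul_le_mul_of_nonneg_left h3 hε.le
      have h6 : ε / ((n : ℝ) + 1) = ε * (1 / ((n : ℝ) + 1)) := by ring
      rw [← h6] at h5
      push_cast
      have h7 : C₁ * (1 / (n : ℝ) - 1 / (n + 1)) = C₁ * (1 - 1 / ((n : ℝ) + 1)) - C₁ * (1 - 1 / (n : ℝ)) := by
        ring
      rw [h7] at h2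
      linarith
  refine ⟨2 * C₁ + ε + 1, by positivity, fun N hN => ?_⟩
  have hN0 : (0 : ℝ) < N := by exact_mod_cast hN
  have hN1 : (1 : ℝ) ≤ N := by exact_mod_cast hN
  have h1 := key N hN
  have h2 : |(∑ k ∈ Icc 1 N, wt m k - c * N) / N| ≤ ε + C₁ := by
    rw [abs_div, abs_of_pos hN0, div_le_iff₀ hN0]
    have := hC₁ N
    nlinarith
  -- the harmonic sum
  have h3 : |∑ k ∈ Icc 1 N, (1 : ℝ) / k - Real.log N| ≤ 1 := by
    have e1 : ((harmonic N : ℚ) : ℝ) = ∑ k ∈ Icc 1 N, (1 : ℝ) / k := by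
      rw [harmonic_eq_sum_Icc]
      push_cast
      exact sum_congr rfl fun k _ => (one_div _).symm
    have h4 := log_add_one_le_harmonic N
    have h5 := harmonic_le_one_add_log N
    rw [e1] at h4 h5
    have h6 : Real.log N ≤ Real.log (N + 1 : ℝ) := Real.log_le_log hN0 (by linarith)
    have h7 : ((N + 1 : ℕ) : ℝ) = N + 1 := by push_cast; rfl
    rw [abs_le]
    constructor
    · rw [h7] at h4
      linarith
    · linarith
  have h4 : |c * (∑ k ∈ Icc 1 N, (1 : ℝ) / k - Real.log N)| ≤ 1 := by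
    rw [abs_mul, abs_of_nonneg hc0]
    calc c * |∑ k ∈ Icc 1 N, (1 : ℝ) / k - Real.log N| ≤ 1 * 1 :=
          mul_le_mul hc1 h3 (abs_nonneg _) zero_le_one
      _ = 1 := one_mul 1
  have h5 : C₁ * (1 - 1 / (N : ℝ)) ≤ C₁ := by
    have : 0 ≤ C₁ * (1 / (N : ℝ)) := by positivity
    linarith
  rw [abs_le] at h1 h2 h4 ⊢
  constructor <;> linarith [h1.1, h1.2, h2.1, h2.2, h4.1, h4.2]

end Pool.Agent.Run7.h283.OR
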