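import Pool.Agent.Run7.h283.AP.Fin
import Pool.Agent.Run7.h283.OR.Mert

set_option autoImplicit false

/-!
The resultant sieve with the primes that are `1` modulo `q`, up to a power of the height.
-/

namespace Pool.Agent.Run7.h283.OR

open Polynomial Finset Pool.Agent.Helper923.HMertens Pool.Agent.Run7.h283.AP

/-- the primes up to `N` that are `1` modulo `q` -/
def PQ (q N : ℕ) : Finset ℕ := (PP N).filter fun p => p % q = 1 % q

lemma mem_PQ {q N p : ℕ} : p ∈ PQ q N ↔ (1 ≤ p ∧ p ≤ N) ∧ p.Prime ∧ p % q = 1 % q := by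
  rw [PQ, mem_filter, mem_filter, mem_Icc]
  tauto

lemma sum_PQ (q N : ℕ) : ∑ p ∈ PQ q N, Real.log p / p = ∑ k ∈ Icc 1 N, wt q k / k := by
  rw [PQ, filter_filter, sum_filter]
  refine sum_congr rfl fun k _ => ?_
  unfold wt
  split_ifs
  · rfl
  · rw [zero_div]

open Classical in
theorem sparseQ {n d D P₁ q : ℕ} (hn : 1 ≤ n) (hD : 1 ≤ D) (hq : 1 ≤ q) {lam θ K : ℝ}
    (hlam : 0 < lam) (hθ : 2 * (d : ℝ) * (q.totient : ℝ)⁻¹ < n * D * lam ^ 2 * θ) :
    ∃ C : ℝ, ∀ A : ℕ → ℤ[X] → Prop, ClsP A n d P₁ → ∀ X : ℝ, 2 ≤ X →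
      (Set.ncard {P : ℤ[X] | (Adm D P ∧ ∑ p ∈ Icc 1 ⌊X ^ θ⌋₊ with (p.Prime ∧ p % q = 1 % q) ∧ ¬ A p P,
        Real.log p / p ≤ ((q.totient : ℝ)⁻¹ - lam) * θ * Real.log X + K) ∧ ∀ i, |(P.coeff i : ℝ)| ≤ X} : ℝ) ≤
        C * X ^ θ := by
  set c := (q.totient : ℝ)⁻¹ with hc
  have hc0 : 0 < c := by
    rw [hc]
    exact inv_pos.2 (by exact_mod_cast Nat.totient_pos.2 hq)
  have hc1 : c ≤ 1 := by
    rw [hc]
    refine inv_le_one_of_one_le₀ ?_
    exact_mod_cast Nat.totient_pos.2 hq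
  have hn0 : (0 : ℝ) < n := by exact_mod_cast hn
  have hD0 : (0 : ℝ) < D := by exact_mod_cast hD
  have hd0 : (0 : ℝ) ≤ d := Nat.cast_nonneg d
  have hθ0 : 0 < θ := by
    by_contra h
    push Not at h
    have : n * D * lam ^ 2 * θ ≤ 0 := mul_nonpos_of_nonneg_of_nonpos (by positivity) h
    have h2 : 0 ≤ 2 * (d : ℝ) * c := by positivity
    linarith
  have hnn : ∀ p : ℕ, 0 ≤ Real.log p / p := fun p =>
    div_nonneg (Real.log_natCast_nonneg p) (Nat.cast_nonneg p)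
  set m := D + (D - 1) with hm
  -- choice of δ
  set g := n * D ^ 2 * (lam * θ) ^ 2 - 2 * d * D * θ * c with hg
  have hg0 : 0 < g := by
    have h1 : 2 * (d : ℝ) * c * (D * θ) < n * D * lam ^ 2 * θ * (D * θ) :=
      mul_lt_mul_of_pos_right hθ (by positivity)
    rw [hg]; nlinarith
  have hlt : 0 < lam * θ := by positivity
  set δ := min (lam * θ / 2) (g / (4 * (n * D ^ 2 * (lam * θ)))) with hδ
  have hδ0 : 0 < δ := lt_min (by positivity) (by positivity)
  set ε := min (δ / (2 * θ)) (g / (8 * ((d : ℝ) + 1) * D * θ)) with hε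
  have hε0 : 0 < ε := lt_min (by positivity) (by positivity)
  have hε1 : ε * θ ≤ δ / 2 := by
    have := min_le_left (δ / (2 * θ)) (g / (8 * ((d : ℝ) + 1) * D * θ))
    rw [← hε, le_div_iff₀ (by positivity)] at this
    linarith
  have hε2 : 2 * d * D * θ * ε ≤ g / 4 := by
    have h1 := min_le_right (δ / (2 * θ)) (g / (8 * ((d : ℝ) + 1) * D * θ))
    rw [← hε, le_div_iff₀ (by positivity)] at h1
    have h2 : 0 ≤ ε * (D * θ) := by positivity
    nlinarith
  obtain ⟨C₀, hC₀0, hC₀⟩ := mertens_one hq hε0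
  obtain ⟨y, hy⟩ := exists_nat_ge (((m : ℝ) + 1) / (δ / 2))
  have hy0 : (0 : ℝ) < y := lt_of_lt_of_le (by positivity) hy
  have hy1 : 1 ≤ y := by exact_mod_cast hy0
  set a1 := lam * θ - ε * θ - ((m : ℝ) + 1) / y with ha1
  have hmy : ((m : ℝ) + 1) / y ≤ δ / 2 := by
    rw [div_le_iff₀ (by positivity)] at hy
    rw [div_le_iff₀ hy0]
    linarith
  have ha1δ : lam * θ - δ ≤ a1 := by rw [ha1]; linarith
  have hδ1 : δ ≤ lam * θ / 2 := min_le_left _ _
  have hδ2 : δ * (4 * (n * D ^ 2 * (lam * θ))) ≤ g := by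
    have := min_le_right (lam * θ / 2) (g / (4 * (n * D ^ 2 * (lam * θ))))
    rw [← hδ, le_div_iff₀ (by positivity)] at this
    exact this
  have ha10 : 0 < a1 := by linarith
  have hlead : 0 < n * D ^ 2 * a1 ^ 2 - 2 * d * D * θ * (c + ε) := by
    have h1 : (lam * θ - δ) ^ 2 ≤ a1 ^ 2 := pow_le_pow_left₀ (by linarith) ha1δ 2
    have h2 : n * D ^ 2 * (lam * θ - δ) ^ 2 ≤ n * D ^ 2 * a1 ^ 2 :=
      mul_le_mul_of_nonneg_left h1 (by positivity)
    have h3 : n * D ^ 2 * (lam * θ - δ) ^ 2 =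
        n * D ^ 2 * (lam * θ) ^ 2 - δ * (4 * (n * D ^ 2 * (lam * θ))) / 2 + n * D ^ 2 * δ ^ 2 := by
      ring
    have h4 : 0 < n * (D : ℝ) ^ 2 * δ ^ 2 := by positivity
    rw [h3] at h2
    rw [hg] at hδ2 hg0
    linarith
  -- the constants
  set B₁ := ∑ p ∈ PP P₁, Real.log p / p with hB₁
  set By := ∑ p ∈ PP y, Real.log p / p with hBy
  set cR := Real.log (m.factorial : ℝ) + m * Real.log D with hcR
  set cV := Real.log 2 + C₀ + K + B₁ + By + cR / y with hcV
  set cB := Real.log ((D + D).factorial : ℝ) with hcB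
  have hcB0 : 0 ≤ cB := Real.log_natCast_nonneg _
  obtain ⟨L₁, hL₁⟩ := quad_pos hlead
    (-2 * n * D ^ 2 * a1 * cV - (c + ε) * θ * (d * cB + 1) - 2 * d * D * C₀)
    (n * D ^ 2 * cV ^ 2 - C₀ * (d * cB + 1))
  set L₀ := max (max L₁ (cV / a1)) 1 with hL₀
  refine ⟨max (2 * d * D) ((2 * Real.exp L₀ + 1) ^ (D + 1)), fun A hA X hX => ?_⟩
  have hX0 : 0 < X := by linarith
  have hX1 : 1 ≤ X := by linarith
  have hXθ : 1 ≤ X ^ θ := Real.one_le_rpow hX1 hθ0.le
  obtain ⟨S, hS1, hS2, hS3⟩ := exists_finsetP D (fun P => Adm D P ∧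
    ∑ p ∈ Icc 1 ⌊X ^ θ⌋₊ with (p.Prime ∧ p % q = 1 % q) ∧ ¬ A p P,
        Real.log p / p ≤ (c - lam) * θ * Real.log X + K) (fun P hP => hP.1.1) hX0.le
  rw [hS2]
  set L := Real.log X with hL
  rcases lt_or_ge L L₀ with hlt' | hge
  · have h1 : X < Real.exp L₀ := (Real.log_lt_iff_lt_exp hX0).1 hlt'
    calc (S.card : ℝ) ≤ (2 * X + 1) ^ (D + 1) := hS3
      _ ≤ (2 * Real.exp L₀ + 1) ^ (D + 1) := pow_le_pow_left₀ (by linarith) (by linarith) _
      _ ≤ max (2 * (d : ℝ) * D) ((2 * Real.exp L₀ + 1) ^ (D + 1)) := le_max_right _ _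
      _ = max (2 * (d : ℝ) * D) ((2 * Real.exp L₀ + 1) ^ (D + 1)) * 1 := (mul_one _).symm
      _ ≤ max (2 * (d : ℝ) * D) ((2 * Real.exp L₀ + 1) ^ (D + 1)) * X ^ θ := by
          refine mul_le_mul_of_nonneg_left hXθ ?_
          exact le_trans (by positivity) (le_max_right _ _)
  have hLL₁ : L₁ ≤ L := ((le_max_left _ _).trans (le_max_left _ _)).trans hge
  have hLV : cV ≤ a1 * L := by
    have := ((le_max_right L₁ (cV / a1)).trans (le_max_left _ _)).trans hge
    rw [div_le_iff₀ ha10] at this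
    linarith
  have hL1 : 1 ≤ L := (le_max_right _ _).trans hge
  set N := ⌊X ^ θ⌋₊ with hN
  have hN1 : 1 ≤ N := Nat.le_floor (by exact_mod_cast hXθ)
  set P := (PQ q N).filter (fun p => P₁ < p) with hP
  have hPp : ∀ p ∈ P, p.Prime ∧ P₁ < p := by
    intro p hp
    rw [hP, mem_filter, mem_PQ] at hp
    exact ⟨hp.1.2.1, hp.2⟩
  set W := (c + ε) * θ * L + C₀ with hW
  have hWpos : 0 < W := by
    have : 0 < (c + ε) * θ * L := by positivity
    linarith
  have hlogN : Real.log N ≤ θ * L := by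
    rw [hL, ← Real.log_rpow hX0]
    exact Real.log_le_log (by exact_mod_cast hN1) (Nat.floor_le (by positivity))
  have hlogN2 : θ * L - Real.log 2 ≤ Real.log N := by
    rw [hL, ← Real.log_rpow hX0, ← Real.log_div (by positivity) (by norm_num)]
    refine Real.log_le_log (by positivity) ?_
    have h3 := Nat.lt_floor_add_one (X ^ θ)
    have h4 : (1 : ℝ) ≤ N := by exact_mod_cast hN1
    rw [← hN] at h3
    linarith
  have hWle : ∑ p ∈ P, Real.log p / p ≤ W := by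
    have h1 : ∑ p ∈ P, Real.log p / p ≤ ∑ p ∈ PQ q N, Real.log p / p :=
      sum_le_sum_of_subset_of_nonneg (filter_subset _ _) fun p _ _ => hnn p
    have h2 := (abs_le.1 (hC₀ N hN1)).2
    rw [sum_PQ] at h1
    have h3 : (c + ε) * Real.log N ≤ (c + ε) * (θ * L) :=
      mul_le_mul_of_nonneg_left hlogN (by positivity)
    rw [hW]; linarith
  set V := a1 * L - cV with hV
  have hV0 : 0 ≤ V := by rw [hV]; linarith
  have hlogRR : ∀ Q ∈ S, Real.log |((RR D Q : ℤ) : ℝ)| ≤ ((m : ℝ) + 1) * L + cR := by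
    intro Q hQ
    obtain ⟨⟨hQ1, -⟩, hQ2⟩ := hS1 Q hQ
    have h1 := abs_RR_le hD hQ1.1.le hQ2
    have h2 : 0 < |((RR D Q : ℤ) : ℝ)| := by
      rw [abs_pos]
      exact_mod_cast hQ1.RR_ne hD
    refine (Real.log_le_log h2 h1).trans (le_of_eq ?_)
    have hf : ((m.factorial : ℕ) : ℝ) ≠ 0 := by exact_mod_cast (Nat.factorial_pos m).ne'
    rw [← hm, Real.log_mul hX0.ne' (by positivity), Real.log_mul hf (by positivity), Real.log_pow,
      Real.log_mul hD0.ne' hX0.ne', hcR, hL]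
    ring
  have hSV : ∀ Q ∈ S, V ≤ ∑ p ∈ P with A p Q ∧ ¬ (p : ℤ) ∣ RR D Q, Real.log p / p := by
    intro Q hQ
    obtain ⟨⟨hQ1, hQ3⟩, hQ2⟩ := hS1 Q hQ
    have h1 : PQ q N ⊆ (P.filter fun p => A p Q ∧ ¬ (p : ℤ) ∣ RR D Q) ∪
        (((Icc 1 N).filter fun p => (p.Prime ∧ p % q = 1 % q) ∧ ¬ A p Q) ∪
          (PP P₁ ∪ (PP N).filter fun p => (p : ℤ) ∣ RR D Q)) := by
      intro p hp
      have hp' := hp
      have hp'' : p ∈ PP N := by
        rw [PQ, mem_filter] at hp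
        exact hp.1
      rw [mem_PQ] at hp
      rw [mem_union, mem_union, mem_union]
      by_cases h2 : P₁ < p
      · by_cases h3 : A p Q
        · by_cases h4 : (p : ℤ) ∣ RR D Q
          · right; right; right
            rw [mem_filter]
            exact ⟨hp'', h4⟩
          · left
            rw [mem_filter, hP, mem_filter]
            exact ⟨⟨hp', h2⟩, h3, h4⟩
        · right; left
          rw [mem_filter, mem_Icc]
          exact ⟨hp.1, hp.2, h3⟩
      · right; right; left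
        rw [mem_filter, mem_Icc]
        exact ⟨⟨hp.1.1, by omega⟩, hp.2.1⟩
    have h2 : ∑ p ∈ PQ q N, Real.log p / p ≤
        ∑ p ∈ P with A p Q ∧ ¬ (p : ℤ) ∣ RR D Q, Real.log p / p +
          (∑ p ∈ Icc 1 N with (p.Prime ∧ p % q = 1 % q) ∧ ¬ A p Q, Real.log p / p +
            (B₁ + ∑ p ∈ (PP N).filter (fun p : ℕ => (p : ℤ) ∣ RR D Q), Real.log p / p)) := by
      refine (sum_le_sum_of_subset_of_nonneg h1 fun p _ _ => hnn p).trans ?_
      have hun : ∀ T U : Finset ℕ, ∑ p ∈ T ∪ U, Real.log p / p ≤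
          ∑ p ∈ T, Real.log p / p + ∑ p ∈ U, Real.log p / p := by
        intro T U
        have e1 := sum_union_inter (s₁ := T) (s₂ := U) (f := fun p : ℕ => Real.log p / p)
        have e2 : 0 ≤ ∑ p ∈ T ∩ U, Real.log p / (p : ℝ) := sum_nonneg fun p _ => hnn p
        linarith
      refine (hun _ _).trans (add_le_add le_rfl ((hun _ _).trans (add_le_add le_rfl ?_)))
      exact hun _ _
    have h3 := (abs_le.1 (hC₀ N hN1)).1
    rw [← sum_PQ] at h3
    have h8 : c * (θ * L - Real.log N) ≤ 1 * Real.log 2 :=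
      mul_le_mul hc1 (by linarith) (by linarith) zero_le_one
    have h9 : ε * Real.log N ≤ ε * (θ * L) := mul_le_mul_of_nonneg_left hlogN hε0.le
    have h4 := sum_dvd_le (N := N) (hQ1.RR_ne hD) hy1 (hlogRR Q hQ)
    have h5 : (((m : ℝ) + 1) * L + cR) / y = ((m : ℝ) + 1) / y * L + cR / y := by ring
    rw [h5] at h4
    have h6 : V = lam * θ * L - ε * θ * L - ((m : ℝ) + 1) / y * L -
        (Real.log 2 + C₀ + K + B₁ + By + cR / y) := by
      rw [hV, ha1, hcV]; ring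
    rw [h6]
    have h7 : (c - lam) * θ * L = c * (θ * L) - lam * θ * L := by ring
    rw [h7] at hQ3
    linarith
  have hlogB : Real.log (((D + D).factorial : ℝ) * X ^ (D + D)) ≤ cB + 2 * D * L := by
    have hf : (((D + D).factorial : ℕ) : ℝ) ≠ 0 := by exact_mod_cast (Nat.factorial_pos _).ne'
    rw [Real.log_mul hf (by positivity), Real.log_pow, hcB, hL]
    push_cast
    linarith
  have hmain := weightedP hA hPp hD hX1 (fun Q hQ => ⟨(hS1 Q hQ).1.1, (hS1 Q hQ).2⟩) hlogB hV0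
    hWle hSV
  have hth : ∑ p ∈ P, Real.log p ≤ 2 * X ^ θ := by
    have h1 : ∑ p ∈ P, Real.log p ≤ ∑ p ∈ PP N, Real.log p := by
      refine sum_le_sum_of_subset_of_nonneg ?_ fun p _ _ => ?_
      · exact (filter_subset _ _).trans (filter_subset _ _)
      · exact Real.log_natCast_nonneg p
    have h2 := theta_le N
    have h3 : (N : ℝ) ≤ X ^ θ := Nat.floor_le (by positivity)
    linarith
  have hkey : W ≤ n * D ^ 2 * V ^ 2 - W * d * (cB + 2 * D * L) := by
    have h1 := hL₁ L hLL₁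
    have h2 : n * D ^ 2 * V ^ 2 - W * d * (cB + 2 * D * L) - W =
        (n * D ^ 2 * a1 ^ 2 - 2 * d * D * θ * (c + ε)) * L ^ 2 +
          (-2 * n * D ^ 2 * a1 * cV - (c + ε) * θ * (d * cB + 1) - 2 * d * D * C₀) * L +
          (n * D ^ 2 * cV ^ 2 - C₀ * (d * cB + 1)) := by
      rw [hV, hW]; ring
    linarith
  have h9 : (S.card : ℝ) * W ≤ (2 * d * D * X ^ θ) * W := by
    calc (S.card : ℝ) * W ≤ S.card * (n * D ^ 2 * V ^ 2 - W * d * (cB + 2 * D * L)) :=
          mul_le_mul_of_nonneg_left hkey (Nat.cast_nonneg _)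
      _ ≤ W * d * (D * ∑ p ∈ P, Real.log p) := hmain
      _ ≤ W * d * (D * (2 * X ^ θ)) :=
          mul_le_mul_of_nonneg_left (mul_le_mul_of_nonneg_left hth hD0.le) (by positivity)
      _ = (2 * d * D * X ^ θ) * W := by ring
  have h10 := le_of_mul_le_mul_right h9 hWpos
  exact h10.trans (mul_le_mul_of_nonneg_right (le_max_left _ _) (by positivity))

end Pool.Agent.Run7.h283.OR
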