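import Pool.Agent.Run7.h283.OR.Gen
import Pool.Agent.Run7.h283.OR.Sv

set_option autoImplicit false

/-!
The number of the parameters at which one of finitely many curves does not have good ordinary reduction.
-/

namespace Pool.Agent.Run7.h283.OR

open Polynomial Finset Pool.Agent.N780.CC

theorem count {K ι : Type} [Field K] [IsAlgClosed K] [Fintype ι] (p : ℕ) [Fact p.Prime] [CharP K p]
    {m : ℕ} (hm : 2 ≤ m) (hmp : m ∣ p - 1) (a : ι → ℕ) (ha : ∀ c, a c < m ∧ Nat.Coprime (a c) m)
    (δ : ι → ℕ → ℕ) (g : ι → ℕ → K[X])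
    (hg : ∀ c, ∀ e ∈ Ico 1 m, (g c e).Monic ∧ (g c e).natDegree = δ c e)
    (hsep : ∀ c, (∏ e ∈ Ico 1 m, g c e).Separable) (hp : ∀ c, m * (∑ e ∈ Ico 1 m, δ c e + 2) ≤ p)
    (T : Finset K) (hT : ∀ t ∈ T, ∃ c, ¬ ((∀ e ∈ Ico 1 m, (g c e).eval t ≠ 0) ∧
      ∀ i ∈ Ico 1 m, (hw p (dimE m (a c) (δ c) i) (F0 m (a c) (g c) i ((p - 1) / m) t)).det ≠ 0)) :
    T.card ≤ ∑ c, (∑ e ∈ Ico 1 m, δ c e +
      ∑ i ∈ Ico 1 m, dimE m (a c) (δ c) i * ((i * a c % m) * ((p - 1) / m))) := by
  classical
  set H : ι → K[X] := fun c => (∏ e ∈ Ico 1 m, g c e) *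
    ∏ i ∈ Ico 1 m, (hw p (dimE m (a c) (δ c) i) (FF m (a c) (g c) i ((p - 1) / m))).det with hH
  have hne : ∏ c, H c ≠ 0 := by
    rw [prod_ne_zero_iff]
    intro c _
    refine mul_ne_zero (prod_ne_zero_iff.2 fun e he => (hg c e he).1.ne_zero) ?_
    rw [prod_ne_zero_iff]
    intro i hi
    rw [mem_Ico] at hi
    exact gen_ne p hm hmp hi.1 hi.2 (ha c).1 (ha c).2 (hg c) (hsep c) (hp c)
  have hsub : T ⊆ (∏ c, H c).roots.toFinset := by
    intro t ht
    rw [Multiset.mem_toFinset, mem_roots hne, IsRoot.def, eval_prod]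
    obtain ⟨c, hc⟩ := hT t ht
    refine prod_eq_zero (mem_univ c) ?_
    rw [hH]
    simp only
    rw [eval_mul, eval_prod, eval_prod]
    by_cases h1 : ∀ e ∈ Ico 1 m, (g c e).eval t ≠ 0
    · have h2 : ¬ ∀ i ∈ Ico 1 m,
          (hw p (dimE m (a c) (δ c) i) (F0 m (a c) (g c) i ((p - 1) / m) t)).det ≠ 0 :=
        fun h => hc ⟨h1, h⟩
      push Not at h2
      obtain ⟨i, hi, h3⟩ := h2
      rw [prod_eq_zero (f := fun i => eval t
        (hw p (dimE m (a c) (δ c) i) (FF m (a c) (g c) i ((p - 1) / m))).det) hi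
        (by rw [eval_det]; exact h3), mul_zero]
    · push Not at h1
      obtain ⟨e, he, h3⟩ := h1
      rw [prod_eq_zero he h3, zero_mul]
  refine (card_le_card hsub).trans ((Multiset.toFinset_card_le _).trans ((card_roots' _).trans ?_))
  refine (natDegree_prod_le _ _).trans (sum_le_sum fun c _ => ?_)
  rw [hH]
  simp only
  refine natDegree_mul_le.trans (add_le_add ?_ ?_)
  · exact (natDegree_prod_le _ _).trans (sum_le_sum fun e he => (hg c e he).2.le)
  · exact (natDegree_prod_le _ _).trans (sum_le_sum fun i _ => det_deg (FF_TB _ _ _ _ _))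

/-- a polynomial that is separable over the rational numbers is separable modulo all large primes -/
theorem sep_large (F : ℤ[X]) (hF : (F.map (Int.castRingHom ℚ)).Separable) :
    ∃ N : ℕ, ∀ p : ℕ, p.Prime → N < p → (F.map (Int.castRingHom (ZMod p))).Separable := by
  set d := F.natDegree with hd
  have hinj : Function.Injective (Int.castRingHom ℚ) := RingHom.injective_int _
  rcases Nat.eq_zero_or_pos d with h0 | hpos
  · -- constant
    obtain ⟨z, hz⟩ := natDegree_eq_zero.1 (by rw [← hd, h0] : F.natDegree = 0)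
    have hz0 : z ≠ 0 := by
      rintro rfl
      rw [← hz] at hF
      simp only [map_zero, Polynomial.map_zero] at hF
      exact hF.ne_zero rfl
    refine ⟨z.natAbs, fun p hp hlt => ?_⟩
    have := Fact.mk hp
    rw [← hz, map_C]
    refine (separable_C _).2 (isUnit_iff_ne_zero.2 ?_)
    rw [eq_intCast, Ne, ZMod.intCast_zmod_eq_zero_iff_dvd]
    intro h
    have h1 := Int.natAbs_dvd_natAbs.2 h
    rw [Int.natAbs_natCast] at h1
    have := Nat.le_of_dvd (Int.natAbs_pos.2 hz0) h1
    omega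
  · have hr : resultant F (derivative F) d (d - 1) ≠ 0 := by
      intro h
      have h1 : resultant (F.map (Int.castRingHom ℚ)) (derivative (F.map (Int.castRingHom ℚ)))
          d (d - 1) = 0 := by
        rw [derivative_map, resultant_map_map, h, map_zero]
      have h2 := resultant_ne_zero _ _ hF
      have h3 : (derivative (F.map (Int.castRingHom ℚ))).natDegree = d - 1 := by
        rw [natDegree_derivative, natDegree_map_eq_of_injective hinj]
      rw [h3, natDegree_map_eq_of_injective hinj] at h2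
      exact h2 h1
    obtain ⟨u, v, -, -, huv⟩ := exists_mul_add_mul_eq_C_resultant (f := F) (g := derivative F)
      (m := d) (n := d - 1) le_rfl (natDegree_derivative_le F) (Or.inl (by omega))
    refine ⟨(resultant F (derivative F) d (d - 1)).natAbs, fun p hp hlt => ?_⟩
    have := Fact.mk hp
    have hne : ((resultant F (derivative F) d (d - 1) : ℤ) : ZMod p) ≠ 0 := by
      rw [Ne, ZMod.intCast_zmod_eq_zero_iff_dvd]
      intro h
      have h1 := Int.natAbs_dvd_natAbs.2 h
      rw [Int.natAbs_natCast] at h1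
      have := Nat.le_of_dvd (Int.natAbs_pos.2 hr) h1
      omega
    set r : ZMod p := ((resultant F (derivative F) d (d - 1) : ℤ) : ZMod p) with hrdef
    have h1 := congrArg (Polynomial.map (Int.castRingHom (ZMod p))) huv
    rw [Polynomial.map_add, Polynomial.map_mul, Polynomial.map_mul, map_C, ← derivative_map,
      eq_intCast, ← hrdef] at h1
    rw [separable_def]
    refine ⟨C r⁻¹ * u.map (Int.castRingHom (ZMod p)), C r⁻¹ * v.map (Int.castRingHom (ZMod p)), ?_⟩
    have h2 : C r⁻¹ * C r = (1 : (ZMod p)[X]) := by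
      rw [← C_mul, inv_mul_cancel₀ hne, C_1]
    rw [← h2, ← h1]
    ring

end Pool.Agent.Run7.h283.OR
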