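import Mathlib
import Pool.Agent.N780.CC.GEN
import Pool.Agent.N780.CC.GENZ
import Pool.Agent.N780.CC.KER
import Pool.Agent.N780.CC.DUAL
import Pool.Agent.N780.CC.PAIR
import Pool.Agent.N780.CC.IND

set_option autoImplicit false

/-!
The blocks of the Hasse-Witt matrix of `y ^ m = (x - t) ^ a ∏ g e ^ e` are invertible for all but a few `t`.
-/

namespace Pool.Agent.Run7.h283.OR

open Polynomial Finset Pool.Agent.N780.CC

section deg

variable {R : Type} [CommRing R]

/-- all coefficients have degree at most `N` in the parameter -/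
def TB (N : ℕ) (F : R[X][X]) : Prop := ∀ i, (F.coeff i).natDegree ≤ N

lemma TB.mul {N M : ℕ} {F G : R[X][X]} (hF : TB N F) (hG : TB M G) : TB (N + M) (F * G) := by
  intro i
  rw [coeff_mul]
  exact natDegree_sum_le_of_forall_le _ _ fun x _ => natDegree_mul_le.trans (add_le_add (hF _) (hG _))

lemma TB.one : TB 0 (1 : R[X][X]) := by
  intro i
  rw [coeff_one]
  split_ifs <;> simp

lemma TB.pow {N : ℕ} {F : R[X][X]} (hF : TB N F) (k : ℕ) : TB (N * k) (F ^ k) := by
  induction k with
  | zero => rw [pow_zero, mul_zero]; exact TB.one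
  | succ k ih => rw [pow_succ, Nat.mul_succ]; exact ih.mul hF

lemma TB.prod {ι : Type} (s : Finset ι) (F : ι → R[X][X]) (h : ∀ e ∈ s, TB 0 (F e)) :
    TB 0 (∏ e ∈ s, F e) := by
  classical
  induction s using Finset.induction_on with
  | empty => rw [prod_empty]; exact TB.one
  | insert b s hb ih =>
    rw [prod_insert hb]
    have := (h b (mem_insert_self _ _)).mul (ih fun e he => h e (mem_insert_of_mem he))
    simpa using this

lemma TB.lin : TB 1 (X - C X : R[X][X]) := by
  intro i
  rw [coeff_sub, coeff_X, coeff_C]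
  refine (natDegree_sub_le _ _).trans (max_le ?_ ?_)
  · split_ifs <;> simp
  · split_ifs
    · exact natDegree_X_le
    · simp

lemma TB.X' : TB 0 (X : R[X][X]) := by
  intro i
  rw [coeff_X]
  split_ifs <;> simp

lemma TB.mapC (g : R[X]) : TB 0 (g.map C) := by
  intro i
  rw [coeff_map, natDegree_C]

lemma det_deg {p d N : ℕ} {F : R[X][X]} (hF : TB N F) : (hw p d F).det.natDegree ≤ d * N := by
  have hent : ∀ i j, (hw p d F i j).natDegree ≤ N := by
    intro i j
    have := (TB.X'.pow ((j : ℕ) + 1)).mul hF (p * ((i : ℕ) + 1))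
    simpa [hw] using this
  rw [Matrix.det_apply']
  refine natDegree_sum_le_of_forall_le _ _ fun σ _ => ?_
  refine natDegree_mul_le.trans ?_
  have h1 : ((((Equiv.Perm.sign σ : ℤˣ) : ℤ) : R[X])).natDegree = 0 := natDegree_intCast _
  rw [h1, zero_add]
  refine (natDegree_prod_le _ _).trans ((sum_le_sum fun i _ => hent _ _).trans (le_of_eq ?_))
  rw [sum_const, card_univ, Fintype.card_fin, smul_eq_mul]

end deg

variable {K : Type} [Field K]

/-- the polynomial of the `i`-th block, `E = (p - 1) / m` -/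
noncomputable def F0 (m a : ℕ) (g : ℕ → K[X]) (i E : ℕ) (t : K) : K[X] :=
  (X - C t) ^ ((i * a % m) * E) * ∏ e ∈ Ico 1 m, g e ^ ((i * e % m) * E)

/-- the same with a variable instead of `t` -/
noncomputable def FF (m a : ℕ) (g : ℕ → K[X]) (i E : ℕ) : K[X][X] :=
  (X - C X) ^ ((i * a % m) * E) * ∏ e ∈ Ico 1 m, ((g e).map C) ^ ((i * e % m) * E)

lemma FF_eval (m a : ℕ) (g : ℕ → K[X]) (i E : ℕ) (t : K) :
    (FF m a g i E).map (evalRingHom t) = F0 m a g i E t := by
  unfold FF F0
  have h1 : (evalRingHom t).comp (C : K →+* K[X]) = RingHom.id K := by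
    ext x; simp
  rw [Polynomial.map_mul, Polynomial.map_pow, Polynomial.map_sub, map_X, map_C, Polynomial.map_prod]
  congr 1
  · simp
  · refine prod_congr rfl fun e _ => ?_
    rw [Polynomial.map_pow, Polynomial.map_map, h1, Polynomial.map_id]

lemma FF_TB (m a : ℕ) (g : ℕ → K[X]) (i E : ℕ) : TB ((i * a % m) * E) (FF m a g i E) := by
  unfold FF
  have h1 := (TB.lin (R := K)).pow ((i * a % m) * E)
  rw [one_mul] at h1
  have h2 := TB.prod (Ico 1 m) (fun e => ((g e).map (C : K →+* K[X])) ^ ((i * e % m) * E))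
    (fun e _ => by
      have := (TB.mapC (g e)).pow ((i * e % m) * E)
      rwa [zero_mul] at this)
  have := h1.mul h2
  rwa [add_zero] at this

lemma eval_det (p d m a : ℕ) (g : ℕ → K[X]) (i E : ℕ) (t : K) :
    (hw p d (FF m a g i E)).det.eval t = (hw p d (F0 m a g i E t)).det := by
  rw [← FF_eval, ← genz_hw_map]
  rfl

/-- the dimension of the `i`-th eigenspace in terms of the degrees -/
def dimE (m a : ℕ) (δ : ℕ → ℕ) (i : ℕ) : ℕ := ((i * a % m) + ∑ e ∈ Ico 1 m, (i * e % m) * δ e - 1) / m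

open Classical in
/-- The blocks of the generic curve are invertible. -/
theorem gen_ne [IsAlgClosed K] (p : ℕ) [Fact p.Prime] [CharP K p] {m a i : ℕ} (hm : 2 ≤ m)
    (hmp : m ∣ p - 1) (hi : 1 ≤ i) (him : i < m) (ha : a < m) (hco : Nat.Coprime a m)
    {g : ℕ → K[X]} {δ : ℕ → ℕ} (hg : ∀ e ∈ Ico 1 m, (g e).Monic ∧ (g e).natDegree = δ e)
    (hsep : (∏ e ∈ Ico 1 m, g e).Separable) (hp : m * (∑ e ∈ Ico 1 m, δ e + 2) ≤ p) :
    (hw p (dimE m a δ i) (FF m a g i ((p - 1) / m))).det ≠ 0 := by
  have hs1 : ∀ e ∈ Ico 1 m, (g e).Separable := fun e he => hsep.of_dvd (dvd_prod_of_mem g he)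
  have hprod : ∀ e ∈ Ico 1 m, g e = ∏ x ∈ (g e).roots.toFinset, (X - C x) := by
    intro e he
    have h1 := (IsAlgClosed.splits (g e)).eq_prod_roots_of_monic (hg e he).1
    conv_lhs => rw [h1]
    rw [Finset.prod_multiset_map_count]
    refine prod_congr rfl fun x hx => ?_
    rw [Multiset.count_eq_one_of_mem (nodup_roots (hs1 e he)) (Multiset.mem_toFinset.1 hx), pow_one]
  have hcard : ∀ e ∈ Ico 1 m, ((g e).roots.toFinset).card = δ e := by
    intro e he
    rw [Multiset.toFinset_card_of_nodup (nodup_roots (hs1 e he)),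
      splits_iff_card_roots.1 (IsAlgClosed.splits (g e)), (hg e he).2]
  have hdisj : ∀ e ∈ Ico 1 m, ∀ e' ∈ Ico 1 m, ∀ x : K, x ∈ (g e).roots.toFinset →
      x ∈ (g e').roots.toFinset → e = e' := by
    intro e he e' he' x hx hx'
    by_contra hne
    have h1 : g e * g e' ∣ ∏ e ∈ Ico 1 m, g e := by
      rw [← prod_pair hne]
      exact prod_dvd_prod_of_subset _ _ _ (by
        intro z hz
        rw [mem_insert, mem_singleton] at hz
        rcases hz with rfl | rfl
        · exact he
        · exact he')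
    obtain ⟨u, v, huv⟩ := (hsep.of_dvd h1).isCoprime
    rw [Multiset.mem_toFinset] at hx hx'
    have h2 := (mem_roots'.1 hx).2
    have h3 := (mem_roots'.1 hx').2
    have h4 := congrArg (eval x) huv
    rw [eval_add, eval_mul, eval_mul, h2, h3, mul_zero, mul_zero, add_zero, eval_one] at h4
    exact zero_ne_one h4
  -- the index set
  let J := Σ e : {e // e ∈ Ico 1 m}, {x // x ∈ (g e.1).roots.toFinset}
  let ψ : Fin (Fintype.card J) ≃ J := (Fintype.equivFin J).symm
  let l : Fin (Fintype.card J) → K := fun j => (ψ j).2.1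
  let a' : Fin (Fintype.card J) → ℕ := fun j => (ψ j).1.1
  have hJcard : Fintype.card J = ∑ e ∈ Ico 1 m, δ e := by
    rw [Fintype.card_sigma, ← sum_attach (Ico 1 m) δ]
    refine sum_congr rfl fun e _ => ?_
    rw [Fintype.card_coe, hcard e.1 e.2]
  have hl : Function.Injective l := by
    intro j j' hjj
    apply ψ.injective
    have h1 := hdisj _ (ψ j).1.2 _ (ψ j').1.2 (l j) (ψ j).2.2 (by rw [hjj]; exact (ψ j').2.2)
    have hjj' : (ψ j).2.1 = (ψ j').2.1 := hjj
    rcases hx : ψ j with ⟨e, x⟩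
    rcases hy : ψ j' with ⟨e', y⟩
    rw [hx, hy] at h1
    rw [hx, hy] at hjj'
    have he : e = e' := Subtype.ext h1
    subst he
    have hxy : x = y := Subtype.ext hjj'
    rw [hxy]
  have ha' : ∀ j, a' j < m := fun j => (mem_Ico.1 (ψ j).1.2).2
  have hdim : dim m i a a' = dimE m a δ i := by
    unfold dim dimE
    congr 3
    have h1 : ∑ j, (i * a' j % m) = ∑ x : J, (i * x.1.1 % m) :=
      Fintype.sum_equiv ψ _ _ fun j => rfl
    rw [h1, Fintype.sum_sigma, ← sum_attach (Ico 1 m) fun e => (i * e % m) * δ e]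
    refine sum_congr rfl fun e _ => ?_
    show ∑ _y : {x // x ∈ (g e.1).roots.toFinset}, (i * e.1 % m) = (i * e.1 % m) * δ e.1
    rw [sum_const, card_univ, Fintype.card_coe, hcard e.1 e.2, smul_eq_mul, mul_comm]
  have h := (part_GENZ (part_GEN part_KER part_DUAL part_PAIR part_IND)) K p Unit () m
    (Fintype.card J) i a hm hmp (by rw [hJcard]; exact hp) hi him ha hco l hl a' ha'
  rw [hdim] at h
  -- the image in `K[X]`
  set φ : MvPolynomial Unit K →+* K[X] := MvPolynomial.eval₂Hom (C : K →+* K[X]) (fun _ : Unit => X)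
    with hφ
  have hinj : ∀ q : MvPolynomial Unit K, q ≠ 0 → φ q ≠ 0 := by
    intro q hq hq0
    apply hq
    apply MvPolynomial.funext
    intro x
    have h1 : MvPolynomial.eval x q = (φ q).eval (x ()) := by
      have h2 : (evalRingHom (x ())).comp φ = (MvPolynomial.eval x : MvPolynomial Unit K →+* K) := by
        apply MvPolynomial.ringHom_ext
        · intro r
          simp [hφ]
        · intro j
          simp [hφ]
      rw [← h2]
      rfl
    rw [h1, hq0, eval_zero, map_zero]
  have h1 := hinj _ h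
  rw [genz_hw_map, Polynomial.map_prod] at h1
  simp_rw [Polynomial.map_pow] at h1
  simp_rw [hφ, genz_fam_map] at h1
  rw [genz_prod m (Fintype.card J) a ha a' ha' (X - C X) (fun j => X - C (C (l j)))
      (fun e => i * e % m * ((p - 1) / m))] at h1
  have h2 : ∏ j, (X - C (C (l j)) : K[X][X]) ^ (i * a' j % m * ((p - 1) / m)) =
      ∏ e ∈ Ico 1 m, ((g e).map C) ^ ((i * e % m) * ((p - 1) / m)) := by
    have h3 : ∏ j, (X - C (C (l j)) : K[X][X]) ^ (i * a' j % m * ((p - 1) / m)) =
        ∏ x : J, (X - C (C x.2.1) : K[X][X]) ^ (i * x.1.1 % m * ((p - 1) / m)) :=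
      Fintype.prod_equiv ψ _ _ fun j => rfl
    rw [h3, Fintype.prod_sigma, ← prod_attach (Ico 1 m)
      fun e => ((g e).map C) ^ ((i * e % m) * ((p - 1) / m))]
    refine prod_congr rfl fun e _ => ?_
    have h4 : (g e.1).map (C : K →+* K[X]) = ∏ x ∈ (g e.1).roots.toFinset, (X - C (C x)) := by
      conv_lhs => rw [hprod e.1 e.2]
      rw [Polynomial.map_prod]
      refine prod_congr rfl fun x _ => ?_
      rw [Polynomial.map_sub, map_X, map_C]
    rw [h4, ← prod_pow]
    exact prod_coe_sort ((g e.1).roots.toFinset)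
      fun x => (X - C (C x) : K[X][X]) ^ (i * e.1 % m * ((p - 1) / m))
  rw [h2] at h1
  exact h1

end Pool.Agent.Run7.h283.OR
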