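import Mathlib

set_option autoImplicit false

/-!
Hasse-Witt matrices and smoothness of one parameter families of hypersurfaces.
-/

namespace Pool.Agent.Run7.h283.OR

open MvPolynomial Finset

/-- all coefficients have degree at most `N` in the parameter -/
def MB {σ R : Type} [CommRing R] (N : ℕ) (F : MvPolynomial σ (Polynomial R)) : Prop :=
  ∀ m, (F.coeff m).natDegree ≤ N

section deg

variable {σ R : Type} [CommRing R]

lemma MB.mul {N M : ℕ} {F G : MvPolynomial σ (Polynomial R)} (hF : MB N F) (hG : MB M G) :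
    MB (N + M) (F * G) := by
  classical
  intro i
  rw [coeff_mul]
  exact Polynomial.natDegree_sum_le_of_forall_le _ _ fun x _ =>
    Polynomial.natDegree_mul_le.trans (add_le_add (hF _) (hG _))

lemma MB.one : MB 0 (1 : MvPolynomial σ (Polynomial R)) := by
  classical
  intro i
  rw [coeff_one]
  split_ifs <;> simp

lemma MB.pow {N : ℕ} {F : MvPolynomial σ (Polynomial R)} (hF : MB N F) (k : ℕ) :
    MB (N * k) (F ^ k) := by
  induction k with
  | zero => rw [pow_zero, mul_zero]; exact MB.one
  | succ k ih => rw [pow_succ, Nat.mul_succ]; exact ih.mul hF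

lemma MB.sum {ι : Type} {N : ℕ} (s : Finset ι) (F : ι → MvPolynomial σ (Polynomial R))
    (h : ∀ e ∈ s, MB N (F e)) : MB N (∑ e ∈ s, F e) := by
  intro i
  rw [coeff_sum]
  exact Polynomial.natDegree_sum_le_of_forall_le _ _ fun x hx => h x hx i

lemma MB.mapC (g : MvPolynomial σ R) : MB 0 (g.map (Polynomial.C)) := by
  intro i
  rw [coeff_map, Polynomial.natDegree_C]

lemma MB.pderiv {N : ℕ} {F : MvPolynomial σ (Polynomial R)} (hF : MB N F) (i : σ) :
    MB N (pderiv i F) := by
  intro m
  rw [coeff_pderiv]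
  refine Polynomial.natDegree_mul_le.trans ?_
  have h1 : ((m i : Polynomial R) + 1).natDegree = 0 := by
    have : ((m i : Polynomial R) + 1) = ((m i + 1 : ℕ) : Polynomial R) := by push_cast; rfl
    rw [this]
    exact Polynomial.natDegree_natCast _
  rw [h1, add_zero]
  exact hF _

lemma MB.map {S : Type} [CommRing S] {N : ℕ} {F : MvPolynomial σ (Polynomial R)} (hF : MB N F)
    (φ : R →+* S) : MB N (F.map (Polynomial.mapRingHom φ)) := by
  intro m
  rw [coeff_map]
  exact Polynomial.natDegree_map_le.trans (hF m)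

lemma det_degM {ι : Type} [Fintype ι] [DecidableEq ι] {N : ℕ} (A : Matrix ι ι (Polynomial R))
    (hA : ∀ i j, (A i j).natDegree ≤ N) : A.det.natDegree ≤ Fintype.card ι * N := by
  rw [Matrix.det_apply']
  refine Polynomial.natDegree_sum_le_of_forall_le _ _ fun σ _ => ?_
  refine Polynomial.natDegree_mul_le.trans ?_
  have h1 : ((((Equiv.Perm.sign σ : ℤˣ) : ℤ) : Polynomial R)).natDegree = 0 :=
    Polynomial.natDegree_intCast _
  rw [h1, zero_add]
  refine (Polynomial.natDegree_prod_le _ _).trans
    ((sum_le_sum fun i _ => hA _ _).trans (le_of_eq ?_))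
  rw [sum_const, card_univ, smul_eq_mul]

end deg

/-- exponent vectors with positive entries and sum `d` -/
def Idx (n d : ℕ) : Finset (Fin n → ℕ) := (univ.piAntidiag d).filter fun u => ∀ i, u i ≠ 0

/-- exponent vectors with sum `M` -/
def Mon (n M : ℕ) : Finset (Fin n → ℕ) := univ.piAntidiag M

/-- the Hasse-Witt matrix -/
noncomputable def HW {R : Type} [CommRing R] (p n d : ℕ) (F : MvPolynomial (Fin n) R) :
    Matrix (Idx n d) (Idx n d) R :=
  Matrix.of fun u v =>
    (F ^ (p - 1)).coeff (Finsupp.equivFunOnFinite.symm fun i => p * u.1 i - v.1 i)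

/-- the partial derivatives have no common zero except `0` -/
def Sm {k : Type} [Field k] {n : ℕ} (F : MvPolynomial (Fin n) k) : Prop :=
  ∀ x : Fin n → k, (∀ i, eval x (pderiv i F) = 0) → x = 0

lemma HW_map {R S : Type} [CommRing R] [CommRing S] (φ : R →+* S) (p n d : ℕ)
    (F : MvPolynomial (Fin n) R) : φ (HW p n d F).det = (HW p n d (F.map φ)).det := by
  rw [RingHom.map_det]
  congr 1
  ext u v
  simp only [HW, RingHom.mapMatrix_apply, Matrix.map_apply, Matrix.of_apply]
  rw [← map_pow, coeff_map]

lemma HW_deg {R : Type} [CommRing R] {p n d r : ℕ} {F : MvPolynomial (Fin n) (Polynomial R)}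
    (hF : MB r F) : (HW p n d F).det.natDegree ≤ (Idx n d).card * (r * (p - 1)) := by
  have h := det_degM (N := r * (p - 1)) (HW p n d F) (fun i j => (hF.pow (p - 1)) _)
  rwa [Fintype.card_coe] at h

/-- The Hasse-Witt matrix of a diagonal form. -/
theorem HW_diag {k : Type} [Field k] (p : ℕ) [Fact p.Prime] [CharP k p] {n d : ℕ} (hd : 1 ≤ d)
    (hdp : d ∣ p - 1) (a : Fin n → k) (ha : ∀ i, a i ≠ 0) :
    (HW p n d (∑ i, C (a i) * X i ^ d)).det ≠ 0 := by
  classical
  have hp : p.Prime := Fact.out
  obtain ⟨e, he⟩ := hdp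
  have hp1 : p = d * e + 1 := by have := hp.one_lt; omega
  have he1 : 1 ≤ e := by
    rcases Nat.eq_zero_or_pos e with h | h
    · rw [h, mul_zero] at he
      have := hp.one_lt
      omega
    · exact h
  have hexp : (∑ i, C (a i) * X i ^ d : MvPolynomial (Fin n) k) = expand d (∑ i, a i • X i) := by
    rw [map_sum]
    refine sum_congr rfl fun i _ => ?_
    rw [smul_eq_C_mul, map_mul, expand_C, expand_X]
  have hle : ∀ u ∈ Idx n d, ∀ i, 1 ≤ u i ∧ u i ≤ d := by
    intro u hu i
    rw [Idx, mem_filter, mem_piAntidiag] at hu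
    refine ⟨Nat.pos_of_ne_zero (hu.2 i), ?_⟩
    rw [← hu.1.1]
    exact single_le_sum (f := u) (fun _ _ => Nat.zero_le _) (mem_univ i)
  have hdiag : HW p n d (∑ i, C (a i) * X i ^ d) = Matrix.diagonal fun u : Idx n d =>
      ((Nat.multinomial univ fun i => e * u.1 i : ℕ) : k) * ∏ i, a i ^ (e * u.1 i) := by
    ext u v
    rw [Matrix.diagonal_apply]
    simp only [HW, Matrix.of_apply]
    rw [hexp, ← map_pow]
    split_ifs with huv
    · subst huv
      have h1 : (Finsupp.equivFunOnFinite.symm fun i => p * u.1 i - u.1 i : Fin n →₀ ℕ) =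
          d • (Finsupp.equivFunOnFinite.symm fun i => e * u.1 i) := by
        ext i
        simp only [Finsupp.equivFunOnFinite_symm_apply_apply, Finsupp.smul_apply, smul_eq_mul]
        rw [hp1, add_mul, one_mul, Nat.add_sub_cancel, mul_assoc]
      rw [h1, coeff_expand_smul _ (by omega), coeff_linearCombination_X_pow_of_fintype]
      have h2 : (Finsupp.equivFunOnFinite.symm fun i => e * u.1 i : Fin n →₀ ℕ).sum
          (fun _ m => m) = p - 1 := by
        rw [Finsupp.sum_fintype _ _ (fun _ => rfl)]
        simp only [Finsupp.equivFunOnFinite_symm_apply_apply]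
        rw [← mul_sum]
        have h3 := mem_piAntidiag.1 (mem_filter.1 u.2).1
        rw [h3.1, he, mul_comm]
      rw [if_pos h2]
      congr 1
      · rw [Finsupp.multinomial_eq_of_support_subset (subset_univ _)]
        rfl
      · rw [Finsupp.prod_fintype _ _ (fun i => pow_zero _)]
        rfl
    · have h3 : ∃ i, u.1 i ≠ v.1 i := by
        by_contra hcon
        push Not at hcon
        exact huv (Subtype.ext (funext hcon))
      obtain ⟨i, hi⟩ := h3
      refine coeff_expand_of_not_dvd _ (i := i) ?_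
      simp only [Finsupp.equivFunOnFinite_symm_apply_apply]
      intro hdvd
      have h4 := hle u.1 u.2 i
      have h5 := hle v.1 v.2 i
      apply hi
      obtain ⟨c, hc⟩ := hdvd
      have h6 : v.1 i ≤ p * u.1 i := by
        have : v.1 i ≤ p := by
          have : d ≤ d * e := Nat.le_mul_of_pos_right _ he1
          omega
        exact this.trans (Nat.le_mul_of_pos_right _ h4.1)
      have h7 : (u.1 i : ℤ) - v.1 i = d * ((c : ℤ) - e * u.1 i) := by
        have : ((p * u.1 i - v.1 i : ℕ) : ℤ) = ((d * c : ℕ) : ℤ) := by rw [hc]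
        rw [Nat.cast_sub h6] at this
        rw [hp1] at this
        push_cast at this
        linarith
      have h8 : (d : ℤ) ∣ (u.1 i : ℤ) - v.1 i := ⟨_, h7⟩
      have h9 : |(u.1 i : ℤ) - v.1 i| < d := by
        rw [abs_lt]
        constructor
        · have := h4.1; have := h5.2; omega
        · have := h5.1; have := h4.2; omega
      have := Int.eq_zero_of_abs_lt_dvd h8 h9
      omega
  rw [hdiag, Matrix.det_diagonal, prod_ne_zero_iff]
  intro u _
  refine mul_ne_zero ?_ (prod_ne_zero_iff.2 fun i _ => pow_ne_zero _ (ha i))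
  rw [Ne, CharP.cast_eq_zero_iff k p]
  intro hdvd
  have h1 := Nat.multinomial_spec univ fun i => e * u.1 i
  have h2 : p ∣ (∑ i, e * u.1 i).factorial := h1 ▸ Dvd.dvd.mul_left hdvd _
  rw [hp.dvd_factorial, ← mul_sum] at h2
  have h3 := mem_piAntidiag.1 (mem_filter.1 u.2).1
  rw [h3.1, mul_comm, ← he] at h2
  have := hp.one_lt
  omega

end Pool.Agent.Run7.h283.OR
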