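import Pool.Agent.Run7.h283.OR.Hyp

set_option autoImplicit false

/-!
The singular members of a one parameter family of hypersurfaces with a smooth member, and the number of
the members that are singular or have a singular Hasse-Witt matrix.
-/

namespace Pool.Agent.Run7.h283.OR

open MvPolynomial Finset

/-- the exponent vector as a finitely supported function -/
noncomputable abbrev fs {n : ℕ} (m : Fin n → ℕ) : Fin n →₀ ℕ := Finsupp.equivFunOnFinite.symm m

/-- restriction to the line through `x` -/
noncomputable def ray {k : Type} [Field k] {n : ℕ} (x : Fin n → k) :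
    MvPolynomial (Fin n) k →+* Polynomial k :=
  eval₂Hom Polynomial.C fun i => Polynomial.C (x i) * Polynomial.X

lemma ray_coeff {k : Type} [Field k] {n : ℕ} (x : Fin n → k) (M : ℕ) (f : MvPolynomial (Fin n) k) :
    (ray x f).coeff M = ∑ m ∈ Mon n M, f.coeff (fs m) * ∏ i, x i ^ m i := by
  classical
  induction f using MvPolynomial.induction_on' with
  | monomial s a =>
    have h1 : ray x (monomial s a) = Polynomial.C (a * ∏ i, x i ^ s i) *
        Polynomial.X ^ (∑ i, s i) := by
      rw [ray, coe_eval₂Hom, eval₂_monomial, Finsupp.prod_fintype _ _ (fun i => pow_zero _)]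
      simp_rw [mul_pow, prod_mul_distrib, prod_pow_eq_pow_sum]
      rw [Polynomial.C_mul, map_prod]
      simp_rw [Polynomial.C_pow]
      ring
    rw [h1, Polynomial.coeff_C_mul, Polynomial.coeff_X_pow]
    by_cases h : M = ∑ i, s i
    · rw [if_pos h, mul_one]
      rw [sum_eq_single (s : Fin n → ℕ)]
      · have h2 : fs (s : Fin n → ℕ) = s := by ext i; rfl
        rw [h2, coeff_monomial, if_pos rfl]
      · intro m _ hm
        rw [coeff_monomial, if_neg, zero_mul]
        intro hs
        apply hm
        rw [hs]
        rfl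
      · intro hs
        exfalso
        apply hs
        rw [Mon, mem_piAntidiag]
        exact ⟨h.symm, fun i _ => mem_univ i⟩
    · rw [if_neg h, mul_zero]
      symm
      refine sum_eq_zero fun m hm => ?_
      rw [coeff_monomial, if_neg, zero_mul]
      intro hs
      apply h
      rw [Mon, mem_piAntidiag] at hm
      rw [← hm.1, hs]
      rfl
  | add p q hp hq =>
    rw [map_add, Polynomial.coeff_add, hp, hq, ← sum_add_distrib]
    refine sum_congr rfl fun m _ => ?_
    rw [coeff_add, add_mul]

lemma ray_hom {k : Type} [Field k] {n e : ℕ} (x : Fin n → k) {f : MvPolynomial (Fin n) k}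
    (hf : f.IsHomogeneous e) (h0 : eval x f = 0) : ray x f = 0 := by
  classical
  have h1 : ray x f = Polynomial.monomial e ((ray x f).coeff e) := by
    ext M
    rw [Polynomial.coeff_monomial]
    split_ifs with h
    · rw [h]
    · rw [ray_coeff]
      refine sum_eq_zero fun m hm => ?_
      rw [hf.coeff_eq_zero, zero_mul]
      rw [Mon, mem_piAntidiag] at hm
      intro hdeg
      apply h
      rw [← hdeg, ← hm.1, Finsupp.degree_eq_sum]
      rfl
  have h2 : (ray x f).eval 1 = eval x f := by
    have h3 : (Polynomial.evalRingHom (1 : k)).comp (ray x) = (eval x : _ →+* k) := by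
      apply MvPolynomial.ringHom_ext
      · intro a
        simp [ray]
      · intro i
        simp [ray]
    rw [← h3]
    rfl
  rw [h1, Polynomial.eval_monomial, one_pow, mul_one, h0] at h2
  rw [h1, h2, map_zero]

/-- the matrix of the multiples of the partial derivatives -/
noncomputable def Mac {R : Type} [CommRing R] {n M : ℕ}
    (G : Mon n M → Fin n → MvPolynomial (Fin n) R) (F : MvPolynomial (Fin n) R) :
    Matrix (Mon n M) (Mon n M) R :=
  Matrix.of fun m m' => (∑ i, G m i * pderiv i F).coeff (fs m'.1)

lemma Mac_map {R S : Type} [CommRing R] [CommRing S] (φ : R →+* S) {n M : ℕ}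
    (G : Mon n M → Fin n → MvPolynomial (Fin n) R) (F : MvPolynomial (Fin n) R) :
    φ (Mac G F).det = (Mac (fun m i => (G m i).map φ) (F.map φ)).det := by
  rw [RingHom.map_det]
  congr 1
  ext u v
  simp only [Mac, RingHom.mapMatrix_apply, Matrix.map_apply, Matrix.of_apply]
  rw [← coeff_map, map_sum]
  congr 2
  funext i
  rw [map_mul, pderiv_map]

lemma Mac_deg {R : Type} [CommRing R] {n M r : ℕ}
    {G : Mon n M → Fin n → MvPolynomial (Fin n) (Polynomial R)}
    {F : MvPolynomial (Fin n) (Polynomial R)}
    (hG : ∀ m i, MB 0 (G m i)) (hF : MB r F) : (Mac G F).det.natDegree ≤ (Mon n M).card * r := by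
  have h := det_degM (N := r) (Mac G F) (fun m m' => by
    have h1 := MB.sum univ (fun i => G m i * pderiv i F) (N := 0 + r)
      (fun i _ => (hG m i).mul (hF.pderiv i))
    rw [zero_add] at h1
    exact h1 _)
  rwa [Fintype.card_coe] at h

lemma Mac_id {k : Type} [Field k] {n M : ℕ} {N : k} (hN : N ≠ 0)
    {G : Mon n M → Fin n → MvPolynomial (Fin n) k} {F : MvPolynomial (Fin n) k}
    (hG : ∀ m, ∑ i, G m i * pderiv i F = C N * monomial (fs m.1) 1) : (Mac G F).det ≠ 0 := by
  classical
  have h1 : Mac G F = Matrix.diagonal fun _ => N := by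
    ext u v
    rw [Matrix.diagonal_apply]
    simp only [Mac, Matrix.of_apply]
    rw [hG, coeff_C_mul, coeff_monomial]
    by_cases h : u = v
    · rw [h, if_pos rfl, if_pos rfl, mul_one]
    · rw [if_neg h, if_neg, mul_zero]
      intro h2
      exact h (Subtype.ext (Finsupp.equivFunOnFinite.symm.injective h2))
  rw [h1, Matrix.det_diagonal]
  exact prod_ne_zero_iff.2 fun _ _ => hN

lemma Mac_smooth {k : Type} [Field k] {n M d : ℕ} (hM : 1 ≤ M)
    (G : Mon n M → Fin n → MvPolynomial (Fin n) k) {F : MvPolynomial (Fin n) k}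
    (hF : F.IsHomogeneous d) (h : (Mac G F).det ≠ 0) : Sm F := by
  classical
  intro x hx
  set v : Mon n M → k := fun m => ∏ i, x i ^ m.1 i with hv
  have h1 : (Mac G F).mulVec v = 0 := by
    funext m
    have h2 : ray x (∑ i, G m i * pderiv i F) = 0 := by
      rw [map_sum]
      refine sum_eq_zero fun i _ => ?_
      rw [map_mul, ray_hom x hF.pderiv (hx i), mul_zero]
    have h3 := ray_coeff x M (∑ i, G m i * pderiv i F)
    rw [h2, Polynomial.coeff_zero] at h3
    rw [Matrix.mulVec, dotProduct, Pi.zero_apply, h3]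
    exact (sum_coe_sort (Mon n M) fun m' => (∑ i, G m i * pderiv i F).coeff (fs m') *
      ∏ i, x i ^ m' i)
  have h2 := Matrix.eq_zero_of_mulVec_eq_zero h h1
  funext i
  have hmem : (Pi.single i M : Fin n → ℕ) ∈ Mon n M := by
    rw [Mon, mem_piAntidiag]
    exact ⟨by rw [Finset.sum_pi_single']; simp, fun j _ => mem_univ j⟩
  have h3 := congrFun h2 ⟨_, hmem⟩
  rw [hv] at h3
  simp only [Pi.zero_apply] at h3
  rw [prod_eq_zero_iff] at h3
  obtain ⟨j, _, hj⟩ := h3
  by_cases hij : j = i
  · subst hij
    rw [Pi.single_eq_same] at hj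
    exact pow_eq_zero_iff (by omega) |>.1 hj
  · rw [Pi.single_eq_of_ne hij, pow_zero] at hj
    exact absurd hj one_ne_zero

/-- The number of the members of a family that are singular or have a singular Hasse-Witt matrix. -/
theorem countH {k : Type} [Field k] (p : ℕ) {n d r M : ℕ} (hM : 1 ≤ M)
    (F : MvPolynomial (Fin n) (Polynomial k)) (hF : MB r F) (hhom : F.IsHomogeneous d)
    (h0 : (HW p n d (F.map (Polynomial.evalRingHom 0))).det ≠ 0) (N : k) (hN : N ≠ 0)
    (G : Mon n M → Fin n → MvPolynomial (Fin n) k)
    (hG : ∀ m, ∑ i, G m i * pderiv i (F.map (Polynomial.evalRingHom 0)) =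
      C N * monomial (fs m.1) 1) (T : Finset k)
    (hT : ∀ t ∈ T, ¬ (Sm (F.map (Polynomial.evalRingHom t)) ∧
      (HW p n d (F.map (Polynomial.evalRingHom t))).det ≠ 0)) :
    T.card ≤ (Mon n M).card * r + (Idx n d).card * (r * (p - 1)) := by
  classical
  have hcomp : ∀ t : k, (Polynomial.evalRingHom t).comp (Polynomial.C : k →+* Polynomial k) =
      RingHom.id k := by
    intro t
    ext x
    simp
  have hev : ∀ t : k, (Mac (fun m i => (G m i).map Polynomial.C) F).det.eval t =
      (Mac G (F.map (Polynomial.evalRingHom t))).det := by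
    intro t
    have := Mac_map (Polynomial.evalRingHom t) (fun m i => (G m i).map Polynomial.C) F
    rw [Polynomial.coe_evalRingHom] at this
    rw [this]
    congr 2
    funext m i
    rw [MvPolynomial.map_map, hcomp, map_id]
  have hev2 : ∀ t : k, (HW p n d F).det.eval t = (HW p n d (F.map (Polynomial.evalRingHom t))).det :=
    fun t => HW_map (Polynomial.evalRingHom t) p n d F
  set Q := (Mac (fun m i => (G m i).map Polynomial.C) F).det * (HW p n d F).det with hQ
  have hQ0 : Q ≠ 0 := by
    intro h
    have h1 := congrArg (Polynomial.eval 0) h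
    rw [hQ, Polynomial.eval_mul, hev, hev2, Polynomial.eval_zero] at h1
    rcases mul_eq_zero.1 h1 with h2 | h2
    · exact Mac_id hN hG h2
    · exact h0 h2
  have hsub : T ⊆ Q.roots.toFinset := by
    intro t ht
    rw [Multiset.mem_toFinset, Polynomial.mem_roots hQ0, Polynomial.IsRoot.def, hQ,
      Polynomial.eval_mul, hev, hev2]
    by_contra hne
    rw [mul_eq_zero, not_or] at hne
    exact hT t ht ⟨Mac_smooth hM G (hhom.map _) hne.1, hne.2⟩
  refine (card_le_card hsub).trans ((Multiset.toFinset_card_le _).trans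
    ((Polynomial.card_roots' _).trans ?_))
  rw [hQ]
  exact Polynomial.natDegree_mul_le.trans
    (add_le_add (Mac_deg (fun m i => MB.mapC _) hF) (HW_deg hF))

end Pool.Agent.Run7.h283.OR
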