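import Pool.Agent.Run7.h283.OR.Mac

set_option autoImplicit false

/-!
A smooth form over the integers: the monomials of a certain degree, times a number, are in the ideal of
the partial derivatives.
-/

namespace Pool.Agent.Run7.h283.OR

open MvPolynomial Finset

/-- clearing denominators -/
lemma clear {σ : Type} (g : MvPolynomial σ ℚ) :
    ∃ (N : ℤ) (G : MvPolynomial σ ℤ), N ≠ 0 ∧ G.map (Int.castRingHom ℚ) = C (N : ℚ) * g := by
  classical
  induction g using MvPolynomial.induction_on' with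
  | monomial s a =>
    refine ⟨a.den, monomial s a.num, by exact_mod_cast a.den_nz, ?_⟩
    rw [map_monomial, C_mul_monomial]
    congr 1
    have h1 := Rat.mul_den_eq_num a
    push_cast
    rw [mul_comm, eq_intCast]
    exact h1.symm
  | add p q hp hq =>
    obtain ⟨N₁, G₁, h1, h1'⟩ := hp
    obtain ⟨N₂, G₂, h2, h2'⟩ := hq
    refine ⟨N₁ * N₂, C N₂ * G₁ + C N₁ * G₂, mul_ne_zero h1 h2, ?_⟩
    rw [map_add, map_mul, map_mul, h1', h2', map_C, map_C]
    push_cast
    rw [C_mul, eq_intCast, eq_intCast]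
    ring

/-- clearing the denominators of a finite family -/
lemma clear_fam {σ J : Type} [Fintype J] (g : J → MvPolynomial σ ℚ) :
    ∃ (N : ℤ) (G : J → MvPolynomial σ ℤ), N ≠ 0 ∧
      ∀ j, (G j).map (Int.castRingHom ℚ) = C (N : ℚ) * g j := by
  classical
  choose N G hN hG using fun j => clear (g j)
  refine ⟨∏ j, N j, fun j => C (∏ i ∈ univ.erase j, N i) * G j,
    prod_ne_zero_iff.2 fun j _ => hN j, fun j => ?_⟩
  rw [map_mul, map_C, hG, ← mul_prod_erase univ N (mem_univ j)]
  push_cast
  rw [C_mul, eq_intCast]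
  push_cast
  ring

/-- The Nullstellensatz for the partial derivatives of a smooth form. -/
theorem null {n : ℕ} (h : MvPolynomial (Fin n) ℤ)
    (hs : ∀ x : Fin n → ℂ, (∀ i, aeval x (pderiv i h) = 0) → x = 0) :
    ∃ (M : ℕ) (N : ℤ) (G : Mon n M → Fin n → MvPolynomial (Fin n) ℤ), 1 ≤ M ∧ N ≠ 0 ∧
      ∀ m, ∑ i, G m i * pderiv i h = C N * monomial (fs m.1) 1 := by
  classical
  set hQ := h.map (Int.castRingHom ℚ) with hhQ
  set I : Ideal (MvPolynomial (Fin n) ℚ) := Ideal.span (Set.range fun i => pderiv i hQ) with hI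
  have hX : ∀ i, ∃ e : ℕ, (X i : MvPolynomial (Fin n) ℚ) ^ e ∈ I := by
    intro i
    have h1 : (X i : MvPolynomial (Fin n) ℚ) ∈ vanishingIdeal ℚ (zeroLocus ℂ I) := by
      rw [mem_vanishingIdeal_iff]
      intro x hx
      rw [aeval_X]
      have h2 : x = 0 := by
        apply hs
        intro j
        have h3 := hx (pderiv j hQ) (Ideal.subset_span ⟨j, rfl⟩)
        rw [hhQ, pderiv_map] at h3
        rw [aeval_def, eval₂_map, Subsingleton.elim ((algebraMap ℚ ℂ).comp (Int.castRingHom ℚ))
          (algebraMap ℤ ℂ)] at h3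
        exact h3
      rw [h2]
      rfl
    rw [vanishingIdeal_zeroLocus_eq_radical] at h1
    exact h1
  choose e he using hX
  set M := 1 + ∑ i, e i with hM
  have hmono : ∀ m : Mon n M, (monomial (fs m.1) 1 : MvPolynomial (Fin n) ℚ) ∈ I := by
    intro m
    have h1 : ∃ i, e i ≤ m.1 i := by
      by_contra hcon
      push Not at hcon
      have h2 : ∑ i, m.1 i = M := (mem_piAntidiag.1 m.2).1
      have h3 : ∑ i, m.1 i ≤ ∑ i, e i := sum_le_sum fun i _ => (hcon i).le
      omega
    obtain ⟨i, hi⟩ := h1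
    have h2 : (monomial (fs m.1) 1 : MvPolynomial (Fin n) ℚ) =
        monomial (fs m.1 - Finsupp.single i (e i)) 1 * X i ^ e i := by
      rw [X_pow_eq_monomial, monomial_mul, one_mul]
      congr 1
      rw [tsub_add_cancel_of_le]
      rw [Finsupp.single_le_iff]
      exact hi
    rw [h2]
    exact I.mul_mem_left _ (he i)
  have hg : ∀ m : Mon n M, ∃ c : Fin n → MvPolynomial (Fin n) ℚ,
      ∑ i, c i * pderiv i hQ = monomial (fs m.1) 1 := by
    intro m
    exact Ideal.mem_span_range_iff_exists_fun.1 (hmono m)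
  choose c hc using hg
  obtain ⟨N, G, hN, hG⟩ := clear_fam (J := Mon n M × Fin n) (fun j => c j.1 j.2)
  refine ⟨M, N, fun m i => G (m, i), by omega, hN, fun m => ?_⟩
  apply map_injective (Int.castRingHom ℚ) (RingHom.injective_int _)
  rw [map_sum, map_mul, map_C, map_monomial, map_one, ← hc m, mul_sum]
  refine sum_congr rfl fun i _ => ?_
  rw [map_mul, hG, ← pderiv_map, ← hhQ, eq_intCast, mul_assoc]

end Pool.Agent.Run7.h283.OR
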